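import Pool.Agent.Helper24.DN.GRF
import Pool.Agent.Helper26.WR.Stmts

set_option autoImplicit false

/-! # The sum of the ramification function outside a subgroup -/

namespace Pool.Agent.Helper26.WR

open Pool.Agent.Helper21.DN

universe u

theorem par_pow {G : Type u} [Group G] (f : G → ℕ) (hf : RF f) (σ : G) (hσ : σ ≠ 1) (j : ℕ) :
    σ ^ j ≠ 1 → f σ ≤ f (σ ^ j) := by
  induction j with
  | zero => intro h; exact absurd (pow_zero σ) h
  | succ j ih =>
    intro h
    by_cases h1 : σ ^ j = 1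
    · rw [pow_succ, h1, one_mul]
    · have h2 := hf.mul (σ ^ j) σ h1 hσ (by rw [← pow_succ]; exact h)
      rw [← pow_succ] at h2
      exact le_trans (le_min (ih h1) le_rfl) h2

open scoped Classical in
theorem par_lev (h1 : ST_RFV.{u}) (h3 : ST_P3.{u}) (hAS : Pool.Agent.Helper20.NP.ST_AS1.{u})
    (p : ℕ) [hpr : Fact p.Prime] {k K L : Type u} [Field k] [CharP k p] [IsAlgClosed k] [Field K]
    [Field L] [Algebra K L] [FiniteDimensional K L]
    [IsGalois K L] (κ : k →+* K) (v : AddValuation L (WithTop ℤ)) (hR : Ram κ v)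
    (hp : IsPGroup p (L ≃ₐ[K] L)) (J : Subgroup (L ≃ₐ[K] L)) [J.Normal] (hJ : J.index = p) :
    ∃ b : ℕ, ¬ p ∣ b ∧ (∑ g ∈ Finset.univ.filter (fun g : L ≃ₐ[K] L => g ∉ J), s v g) =
      Nat.card J * ((p - 1) * b) := by
  set F := IntermediateField.fixedField J with hF
  obtain ⟨vF, t1, t2⟩ := hR.sub F
  have hRF : Ram κ vF := grf_quot κ v hR F vF t1 t2
  set r : (L ≃ₐ[K] L) →* (F ≃ₐ[K] F) := AlgEquiv.restrictNormalHom F with hr
  have hrs : Function.Surjective r := AlgEquiv.restrictNormalHom_surjective L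
  have hker : r.ker = J := by
    rw [hr, IntermediateField.restrictNormalHom_ker, hF,
      IntermediateField.fixingSubgroup_fixedField]
  have hpF : IsPGroup p (F ≃ₐ[K] F) := hp.of_surjective r hrs
  have hne : ∀ g, r g ≠ 1 ↔ g ∉ J := by
    intro g
    rw [← hker, MonoidHom.mem_ker]
  have hP : ∀ g, g ∉ J → Nat.card J * s vF (r g) = cs (fun σ : L ≃ₐ[K] L => s v σ) J g :=
    fun g hg => grf_P3 h3 p κ v hR hp J vF t1 t2 g hg
  -- the sum
  have hS : (∑ g ∈ Finset.univ.filter (fun g : L ≃ₐ[K] L => g ∉ J), s v g) =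
      Nat.card J * S1 (fun σ : F ≃ₐ[K] F => s vF σ) := by
    unfold S1
    rw [Finset.mul_sum, ← Finset.sum_fiberwise_of_maps_to (g := r)
      (t := Finset.univ.filter (fun σ : F ≃ₐ[K] F => σ ≠ 1))]
    · apply Finset.sum_congr rfl
      intro τ hτ
      rw [Finset.mem_filter] at hτ
      obtain ⟨g, rfl⟩ := hrs τ
      rw [hP g ((hne g).1 hτ.2), ← grf_fib r J hker]
      apply Finset.sum_congr _ (fun _ _ => rfl)
      ext x
      simp only [Finset.mem_filter, Finset.mem_univ, true_and]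
      constructor
      · rintro ⟨-, h⟩
        exact h
      · intro h
        exact ⟨(hne x).1 (h ▸ hτ.2), h⟩
    · intro g hg
      rw [Finset.mem_filter] at hg ⊢
      exact ⟨Finset.mem_univ _, (hne g).2 hg.2⟩
  -- degree
  have hdeg : Module.finrank K F = p := by
    have e1 := Module.finrank_mul_finrank K F L
    have e2 : Module.finrank F L = Nat.card J := by
      rw [hF, IntermediateField.finrank_fixedField_eq_card]
    have e3 : Nat.card (L ≃ₐ[K] L) = Module.finrank K L := IsGalois.card_aut_eq_finrank K L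
    have e4 := J.card_mul_index
    rw [e3, hJ, ← e1, e2, mul_comm] at e4
    exact (Nat.eq_of_mul_eq_mul_right Nat.card_pos e4).symm
  have hcF : Nat.card (F ≃ₐ[K] F) = p := by
    rw [IsGalois.card_aut_eq_finrank, hdeg]
  have hrf : RF (fun σ : F ≃ₐ[K] F => s vF σ) := h1 p k K F κ vF hRF hpF
  obtain ⟨τ0, hτ0⟩ : ∃ τ : F ≃ₐ[K] F, τ ≠ 1 := by
    by_contra hcon
    push Not at hcon
    have hsub : Subsingleton (F ≃ₐ[K] F) := ⟨fun a b => by rw [hcon a, hcon b]⟩
    have : Nat.card (F ≃ₐ[K] F) = 1 := Nat.card_unique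
    rw [hcF] at this
    exact hpr.out.one_lt.ne' this
  have hall : ∀ σ τ : F ≃ₐ[K] F, σ ≠ 1 → τ ≠ 1 → s vF σ ≤ s vF τ := by
    intro σ τ hσ hτ
    obtain ⟨j, hj⟩ := mem_powers_of_prime_card (g' := τ) hcF hσ
    have hj' : σ ^ j = τ := hj
    have := par_pow (fun σ : F ≃ₐ[K] F => s vF σ) hrf σ hσ j (by rw [hj']; exact hτ)
    rw [hj'] at this
    exact this
  obtain ⟨w, α, m, -, hm, -, -, -, hsm⟩ := hAS p k K F κ vF hRF hdeg τ0 hτ0
  refine ⟨s vF τ0, by rw [hsm]; exact hm, ?_⟩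
  rw [hS]
  congr 1
  unfold S1
  have hsum : (∑ g ∈ Finset.univ.filter (fun g : F ≃ₐ[K] F => g ≠ 1), s vF g) =
      ∑ g ∈ Finset.univ.filter (fun g : F ≃ₐ[K] F => g ≠ 1), s vF τ0 := by
    apply Finset.sum_congr rfl
    intro g hg
    exact le_antisymm (hall g τ0 (Finset.mem_filter.1 hg).2 hτ0)
      (hall τ0 g hτ0 (Finset.mem_filter.1 hg).2)
  rw [hsum, Finset.sum_const, Finset.filter_ne', Finset.card_erase_of_mem (Finset.mem_univ _),
    Finset.card_univ, ← Nat.card_eq_fintype_card, hcF, smul_eq_mul]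

open scoped Classical in
theorem par_rel (h1 : ST_RFV.{u}) (h2 : ST_BCH.{u}) (h3 : ST_P3.{u})
    (hAS : Pool.Agent.Helper20.NP.ST_AS1.{u})
    (p : ℕ) [Fact p.Prime] {k K L : Type u} [Field k] [CharP k p] [IsAlgClosed k] [Field K]
    [Field L] [Algebra K L] [FiniteDimensional K L]
    [IsGalois K L] (κ : k →+* K) (v : AddValuation L (WithTop ℤ)) (hR : Ram κ v)
    (hp : IsPGroup p (L ≃ₐ[K] L)) (J H : Subgroup (L ≃ₐ[K] L)) (hJH : J ≤ H)
    (hJn : (J.subgroupOf H).Normal) (hJ : (J.subgroupOf H).index = p) :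
    ∃ b : ℕ, ¬ p ∣ b ∧
      (∑ g ∈ Finset.univ.filter (fun g : L ≃ₐ[K] L => g ∈ H ∧ g ∉ J), s v g) =
      Nat.card J * ((p - 1) * b) := by
  obtain ⟨E, e, he⟩ : ∃ (E : IntermediateField K L)
      (e : H ≃* (L ≃ₐ[E] L)), ∀ (h : H) (x : L), e h x = (h : L ≃ₐ[K] L) x :=
    ⟨IntermediateField.fixedField H, IntermediateField.subgroupEquivAlgEquiv H,
      fun h x => rfl⟩
  have hRE := h2 k K L κ v hR E
  have hpE : IsPGroup p (L ≃ₐ[E] L) := (hp.to_subgroup H).of_equiv e
  have hf : ∀ h : H, (fun σ : L ≃ₐ[E] L => s v σ) (e h) =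
      (fun σ : L ≃ₐ[K] L => s v σ) h := by
    intro h
    have : (e h : L → L) = ((h : L ≃ₐ[K] L) : L → L) := funext (he h)
    simp only [this]
  have hJn' : ((J.subgroupOf H).map e.toMonoidHom).Normal :=
    hJn.map e.toMonoidHom e.surjective
  have hmem : ∀ h : H, e h ∈ (J.subgroupOf H).map e.toMonoidHom ↔ (h : L ≃ₐ[K] L) ∈ J := by
    intro h
    constructor
    · rintro ⟨x, hx, hx2⟩
      have := e.injective hx2
      rw [this] at hx
      exact hx
    · intro hx
      exact ⟨h, hx, rfl⟩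
  have h6 : Nat.card ((J.subgroupOf H).map e.toMonoidHom) = Nat.card J := by
    rw [Subgroup.card_map_of_injective e.injective]
    exact Nat.card_congr (Subgroup.subgroupOfEquivOfLe hJH).toEquiv
  have hidx : ((J.subgroupOf H).map e.toMonoidHom).index = p := by
    rw [← hJ]
    have e1 := ((J.subgroupOf H).map e.toMonoidHom).card_mul_index
    have e2 := (J.subgroupOf H).card_mul_index
    rw [← Nat.card_congr e.toEquiv, ← e2, Subgroup.card_map_of_injective e.injective] at e1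
    exact Nat.eq_of_mul_eq_mul_left Nat.card_pos e1
  obtain ⟨b, hb, hs⟩ := par_lev h1 h3 hAS p ((algebraMap K E).comp κ) v hRE hpE
    ((J.subgroupOf H).map e.toMonoidHom) hidx
  refine ⟨b, hb, ?_⟩
  rw [h6] at hs
  rw [← hs]
  apply Finset.sum_bij (fun (g : L ≃ₐ[K] L)
    (hg : g ∈ Finset.univ.filter (fun h : L ≃ₐ[K] L => h ∈ H ∧ h ∉ J)) =>
    e ⟨g, (Finset.mem_filter.1 hg).2.1⟩)
  · intro g hg
    refine Finset.mem_filter.2 ⟨Finset.mem_univ _, ?_⟩
    rw [hmem]
    exact (Finset.mem_filter.1 hg).2.2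
  · intro a ha b hb hab
    exact congrArg Subtype.val (e.injective hab)
  · intro b hb
    refine ⟨(e.symm b : H), Finset.mem_filter.2 ⟨Finset.mem_univ _, (e.symm b).2, ?_⟩, ?_⟩
    · rw [← hmem, MulEquiv.apply_symm_apply]
      exact (Finset.mem_filter.1 hb).2
    · exact e.apply_symm_apply b
  · intro g hg
    exact (hf ⟨g, (Finset.mem_filter.1 hg).2.1⟩).symm

/-- a larger subgroup -/
theorem par_up {G : Type u} [Group G] [Finite G] (p : ℕ) [hpr : Fact p.Prime] (hG : IsPGroup p G)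
    (J : Subgroup G) (hJ : J ≠ ⊤) : ∃ H : Subgroup G, J ≤ H ∧ (J.subgroupOf H).Normal ∧
      (J.subgroupOf H).index = p ∧ Nat.card H = Nat.card J * p := by
  obtain ⟨n, hn⟩ := (IsPGroup.iff_card (p := p)).1 (hG.to_subgroup J)
  obtain ⟨N, hN⟩ := (IsPGroup.iff_card (p := p)).1 hG
  have hnN : n < N := by
    have h1 : Nat.card J ∣ Nat.card G := J.card_subgroup_dvd_card
    have h2 : Nat.card J ≠ Nat.card G := by
      intro h
      exact hJ (Subgroup.eq_top_of_card_eq J h)
    rw [hn, hN] at h1 h2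
    have h3 := (Nat.pow_dvd_pow_iff_le_right hpr.out.one_lt).1 h1
    exact lt_of_le_of_ne h3 fun h => h2 (by rw [h])
  have hdvd : p ^ (n + 1) ∣ Nat.card G := by
    rw [hN]
    exact pow_dvd_pow _ hnN
  obtain ⟨H, hH, hJH⟩ := Sylow.exists_subgroup_card_pow_succ hdvd hn
  have hc : Nat.card (J.subgroupOf H) = p ^ n := by
    rw [← hn]
    exact Nat.card_congr (Subgroup.subgroupOfEquivOfLe hJH).toEquiv
  have hidx : (J.subgroupOf H).index = p := by
    have e := (J.subgroupOf H).card_mul_index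
    rw [hc, hH, pow_succ] at e
    exact Nat.eq_of_mul_eq_mul_left (pow_pos hpr.out.pos n) e
  refine ⟨H, hJH, ?_, hidx, by rw [hH, hn, pow_succ]⟩
  apply Subgroup.normal_of_index_eq_minFac_card
  rw [hidx, hH, Nat.Prime.pow_minFac hpr.out (Nat.succ_ne_zero n)]

open scoped Classical in
theorem st_PAR (hRFV : ST_RFV.{u}) (hBCH : ST_BCH.{u}) (hP3 : ST_P3.{u}) (hGRF : ST_GRF.{u})
    (hOUT : ST_OUT.{u}) (hAS : Pool.Agent.Helper20.NP.ST_AS1.{u}) : ST_PAR.{u} := by
  intro p hpr k _ _ _ L _ _ _ _ v hv hR hp H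
  have hout : ∀ H : Subgroup (L ≃ₐ[LaurentSeries k] L), ∃ d : ℕ,
      so (fun σ : L ≃ₐ[LaurentSeries k] L => s v σ) H = Nat.card H * d := by
    intro H
    obtain ⟨d, hd⟩ := hOUT p (L ≃ₐ[LaurentSeries k] L)
      (fun σ : L ≃ₐ[LaurentSeries k] L => s v σ) hp
      (hGRF p k (LaurentSeries k) L (κ0 k) v hR hp) H
    refine ⟨d, ?_⟩
    rw [← hd]
    unfold so
    apply Finset.sum_congr _ (fun _ _ => rfl)
    ext g
    simp
  by_cases hH : H = ⊤
  · obtain ⟨d, hd⟩ := hout H
    exact ⟨d, hd, fun h => absurd hH h⟩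
  · obtain ⟨H', hle, hn, hidx, hcard⟩ := par_up p hp H hH
    obtain ⟨b, hb, hsb⟩ := par_rel hRFV hBCH hP3 hAS p (κ0 k) v hR hp H H' hle hn hidx
    obtain ⟨d', hd'⟩ := hout H'
    refine ⟨p * d' + (p - 1) * b, ?_, ?_⟩
    · have hsplit : so (fun σ : L ≃ₐ[LaurentSeries k] L => s v σ) H =
          so (fun σ : L ≃ₐ[LaurentSeries k] L => s v σ) H' +
          ∑ g ∈ Finset.univ.filter
            (fun g : L ≃ₐ[LaurentSeries k] L => g ∈ H' ∧ g ∉ H), s v g := by
        unfold so
        rw [← Finset.sum_union]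
        · apply Finset.sum_congr _ (fun _ _ => rfl)
          ext g
          simp only [Finset.mem_filter, Finset.mem_univ, true_and, Finset.mem_union]
          constructor
          · intro h
            by_cases h' : g ∈ H'
            · exact Or.inr ⟨h', h⟩
            · exact Or.inl h'
          · rintro (h | h)
            · exact fun h' => h (hle h')
            · exact h.2
        · rw [Finset.disjoint_left]
          intro g hg hg'
          exact (Finset.mem_filter.1 hg).2 (Finset.mem_filter.1 hg').2.1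
      rw [hsplit, hd', hsb, hcard]
      ring
    · intro _ hdvd
      have h1 : p ∣ (p - 1) * b := (Nat.dvd_add_right (dvd_mul_right p d')).1 hdvd
      rcases (Nat.Prime.dvd_mul hpr.out).1 h1 with h2 | h2
      · have := Nat.le_of_dvd (by have := hpr.out.one_lt; omega) h2
        have := hpr.out.pos
        omega
      · exact hb h2

end Pool.Agent.Helper26.WR
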