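import Pool.Agent.Helper26.WR.Stmts

set_option autoImplicit false

/-! # Reduced Artin-Schreier representatives -/

namespace Pool.Agent.Helper26.WR

open Pool.Agent.Helper21.DN

universe u

/-- the statement for one series -/
def redpP (p : ℕ) {k : Type u} [Field k] (f : LaurentSeries k) : Prop :=
  ∃ (h : LaurentSeries k) (a : ℕ →₀ k), (∀ j ∈ a.support, ¬ p ∣ j) ∧ f - (h ^ p - h) = pol a

theorem redp_charP (p : ℕ) (k : Type u) [Field k] [CharP k p] : CharP (LaurentSeries k) p :=
  charP_of_injective_ringHom (HahnSeries.C_injective (Γ := ℤ) (R := k)) p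

theorem redp_pol_add {k : Type u} [Field k] (a b : ℕ →₀ k) : pol (a + b) = pol a + pol b := by
  classical
  unfold pol
  exact Finsupp.sum_add_index' (fun j => by simp) (fun j c d => by simp)

theorem redp_add {p : ℕ} [Fact p.Prime] {k : Type u} [Field k] [CharP k p]
    {f g : LaurentSeries k} (hf : redpP p f) (hg : redpP p g) : redpP p (f + g) := by
  classical
  have := redp_charP p k
  obtain ⟨h1, a1, ha1, e1⟩ := hf
  obtain ⟨h2, a2, ha2, e2⟩ := hg
  refine ⟨h1 + h2, a1 + a2, ?_, ?_⟩
  · intro j hj
    rcases Finset.mem_union.1 (Finsupp.support_add hj) with h | h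
    · exact ha1 j h
    · exact ha2 j h
  · rw [redp_pol_add, ← e1, ← e2, add_pow_char h1 h2 p]
    ring

theorem redp_as {p : ℕ} {k : Type u} [Field k] (h : LaurentSeries k) :
    redpP p (h ^ p - h) := by
  refine ⟨h, 0, by simp, ?_⟩
  simp [pol]

theorem redp_single {p : ℕ} [hp : Fact p.Prime] {k : Type u} [Field k] [CharP k p]
    [IsAlgClosed k] (n : ℕ) : ∀ c : k, redpP p (HahnSeries.single (-(n : ℤ)) c) := by
  induction n using Nat.strong_induction_on with
  | _ n ih =>
    intro c
    have hp1 : 1 < p := hp.out.one_lt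
    rcases Nat.eq_zero_or_pos n with rfl | hn
    · -- constant term
      obtain ⟨x, hx⟩ : ∃ x : k, x ^ p - x = c := by
        have hdeg : (Polynomial.X ^ p - Polynomial.X - Polynomial.C c : Polynomial k).degree ≠ 0 := by
          have h1 : (Polynomial.X ^ p - Polynomial.X - Polynomial.C c : Polynomial k).degree = p := by
            have h2 : (Polynomial.X ^ p - Polynomial.X - Polynomial.C c : Polynomial k) =
              Polynomial.X ^ p + (-Polynomial.X - Polynomial.C c) := by ring
            rw [h2, Polynomial.degree_add_eq_left_of_degree_lt, Polynomial.degree_X_pow]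
            rw [Polynomial.degree_X_pow]
            refine lt_of_le_of_lt (Polynomial.degree_sub_le _ _) ?_
            rw [max_lt_iff, Polynomial.degree_neg, Polynomial.degree_X]
            refine ⟨by exact_mod_cast hp1, ?_⟩
            exact lt_of_le_of_lt Polynomial.degree_C_le (by exact_mod_cast hp.out.pos)
          rw [h1]
          exact_mod_cast hp.out.ne_zero
        obtain ⟨x, hx⟩ := IsAlgClosed.exists_root _ hdeg
        refine ⟨x, ?_⟩
        have := hx
        simp only [Polynomial.IsRoot.def, Polynomial.eval_sub, Polynomial.eval_pow,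
          Polynomial.eval_X, Polynomial.eval_C] at this
        exact sub_eq_zero.1 this
      have h1 : (HahnSeries.single (-((0 : ℕ) : ℤ)) c : LaurentSeries k) =
          (HahnSeries.C x) ^ p - HahnSeries.C x := by
        rw [← map_pow, ← map_sub, hx]
        simp [HahnSeries.C_apply]
      rw [h1]
      exact redp_as _
    · by_cases hd : p ∣ n
      · obtain ⟨m, rfl⟩ := hd
        obtain ⟨c', hc'⟩ := IsAlgClosed.exists_pow_nat_eq c hp.out.pos
        have hm : m < p * m := by
          have hm0 : 0 < m := Nat.pos_of_mul_pos_left hn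
          nlinarith
        have h1 : (HahnSeries.single (-((p * m : ℕ) : ℤ)) c : LaurentSeries k) =
          ((HahnSeries.single (-(m : ℤ)) c' : LaurentSeries k) ^ p - HahnSeries.single (-(m : ℤ)) c')
            + HahnSeries.single (-(m : ℤ)) c' := by
          rw [sub_add_cancel, HahnSeries.single_pow, hc']
          congr 1
          push_cast
          simp
        rw [h1]
        exact redp_add (redp_as _) (ih m hm c')
      · refine ⟨0, Finsupp.single n c, ?_, ?_⟩
        · intro j hj
          have := Finsupp.support_single_subset hj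
          rw [Finset.mem_singleton] at this
          rw [this]
          exact hd
        · rw [zero_pow hp.out.ne_zero, sub_zero, sub_zero, pol, Finsupp.sum_single_index]
          simp

/-- the part with positive exponents -/
theorem redp_pos {p : ℕ} [hp : Fact p.Prime] {k : Type u} [Field k] [CharP k p]
    (g : PowerSeries k) (hg : PowerSeries.X ∣ g) : ∃ h : PowerSeries k, h ^ p - h = g := by
  have : CharP (PowerSeries k) p :=
    charP_of_injective_ringHom (PowerSeries.C_injective (R := k)) p
  have hp1 : 1 < p := hp.out.one_lt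
  -- partial sums
  have hrec : ∀ n : ℕ, (-(∑ i ∈ Finset.range n, g ^ p ^ i)) ^ p -
      (-(∑ i ∈ Finset.range n, g ^ p ^ i)) = g - g ^ p ^ n := by
    intro n
    induction n with
    | zero => simp [hp.out.ne_zero]
    | succ n ih =>
      rw [Finset.sum_range_succ, neg_add, add_pow_char _ _ p]
      have h2 : (-(g ^ p ^ n)) ^ p = -(g ^ p ^ (n + 1)) := by
        have h3 := sub_pow_char (0 : PowerSeries k) (g ^ p ^ n) (p := p)
        rw [zero_sub, zero_pow hp.out.ne_zero, zero_sub] at h3
        rw [h3, pow_succ, pow_mul]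
      rw [h2]
      linear_combination ih
  have hX : ∀ n : ℕ, PowerSeries.X ^ n ∣ g ^ p ^ n := by
    intro n
    refine dvd_trans (pow_dvd_pow _ (Nat.lt_pow_self hp1).le) ?_
    exact pow_dvd_pow_of_dvd hg _
  set H : PowerSeries k := PowerSeries.mk fun n =>
    PowerSeries.coeff n (-(∑ i ∈ Finset.range (n + 1), g ^ p ^ i)) with hH
  have hcoef : ∀ n m : ℕ, n < m → PowerSeries.coeff n (-(∑ i ∈ Finset.range m, g ^ p ^ i)) =
      PowerSeries.coeff n H := by
    intro n m hnm
    rw [hH, PowerSeries.coeff_mk]
    obtain ⟨d, rfl⟩ := Nat.exists_eq_add_of_lt hnm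
    induction d with
    | zero => rfl
    | succ d ih =>
      rw [show n + (d + 1) + 1 = (n + d + 1) + 1 by ring, Finset.sum_range_succ, neg_add, map_add,
        ih (by omega)]
      have h4 : PowerSeries.coeff n (-(g ^ p ^ (n + d + 1))) = 0 := by
        rw [map_neg, neg_eq_zero]
        exact PowerSeries.X_pow_dvd_iff.1 (hX (n + d + 1)) n (by omega)
      rw [h4, add_zero]
  have hdiv : ∀ m : ℕ, PowerSeries.X ^ m ∣ H - (-(∑ i ∈ Finset.range m, g ^ p ^ i)) := by
    intro m
    rw [PowerSeries.X_pow_dvd_iff]
    intro n hn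
    rw [map_sub, hcoef n m hn, sub_self]
  refine ⟨H, ?_⟩
  rw [← sub_eq_zero]
  ext n
  rw [map_zero]
  have h5 : PowerSeries.X ^ (n + 1) ∣ H ^ p - H - g := by
    set S := -(∑ i ∈ Finset.range (n + 1), g ^ p ^ i) with hS
    have h6 : H ^ p - H - g = (H - S) ^ p - (H - S) - g ^ p ^ (n + 1) := by
      rw [sub_pow_char]
      have := hrec (n + 1)
      rw [← hS] at this
      linear_combination this
    rw [h6]
    refine dvd_sub (dvd_sub ?_ (hdiv (n + 1))) (hX (n + 1))
    exact dvd_trans (hdiv (n + 1)) (dvd_pow_self _ hp.out.ne_zero)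
  exact PowerSeries.X_pow_dvd_iff.1 h5 n (by omega)

theorem redp_ps {p : ℕ} [hp : Fact p.Prime] {k : Type u} [Field k] [CharP k p]
    [IsAlgClosed k] (n : ℕ) : ∀ g : PowerSeries k,
    redpP p (HahnSeries.single (-(n : ℤ)) (1 : k) * (g : LaurentSeries k)) := by
  induction n with
  | zero =>
    intro g
    have h1 : (HahnSeries.single (-((0 : ℕ) : ℤ)) (1 : k) * (g : LaurentSeries k)) =
        HahnSeries.single (-((0 : ℕ) : ℤ)) (PowerSeries.constantCoeff g) +
        ((g - PowerSeries.C (PowerSeries.constantCoeff g) : PowerSeries k) : LaurentSeries k) := by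
      simp [HahnSeries.C_apply]
    rw [h1]
    refine redp_add (redp_single 0 _) ?_
    obtain ⟨h, hh⟩ := redp_pos (p := p) (g - PowerSeries.C (PowerSeries.constantCoeff g))
      (by rw [PowerSeries.X_dvd_iff]; simp)
    rw [← hh]
    have h2 : ((h ^ p - h : PowerSeries k) : LaurentSeries k) =
      (h : LaurentSeries k) ^ p - (h : LaurentSeries k) := by simp
    rw [h2]
    exact redp_as _
  | succ n ih =>
    intro g
    obtain ⟨g', hg'⟩ : PowerSeries.X ∣ g - PowerSeries.C (PowerSeries.constantCoeff g) := by
      rw [PowerSeries.X_dvd_iff]; simp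
    have h1 : (HahnSeries.single (-((n + 1 : ℕ) : ℤ)) (1 : k) * (g : LaurentSeries k)) =
        HahnSeries.single (-((n + 1 : ℕ) : ℤ)) (PowerSeries.constantCoeff g) +
        HahnSeries.single (-(n : ℤ)) (1 : k) * (g' : LaurentSeries k) := by
      have h2 : g = PowerSeries.C (PowerSeries.constantCoeff g) + PowerSeries.X * g' := by
        rw [← hg']; ring
      have h3 : (g : LaurentSeries k) = HahnSeries.C (PowerSeries.constantCoeff g) +
          HahnSeries.single (1 : ℤ) (1 : k) * (g' : LaurentSeries k) := by
        conv_lhs => rw [h2]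
        simp
      rw [h3, mul_add, ← mul_assoc, HahnSeries.single_mul_single, HahnSeries.C_apply,
        HahnSeries.single_mul_single]
      simp
    rw [h1]
    exact redp_add (redp_single (n + 1) _) (ih g')

theorem st_REDP : ST_REDP := by
  intro p hp k _ _ _ f
  have h1 : redpP p f := by
    obtain ⟨n, g, hg⟩ : ∃ (n : ℕ) (g : PowerSeries k),
        f = HahnSeries.single (-(n : ℤ)) (1 : k) * (g : LaurentSeries k) := by
      have h2 := LaurentSeries.single_order_mul_powerSeriesPart f
      rcases le_total 0 f.order with h | h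
      · obtain ⟨m, hm⟩ := Int.eq_ofNat_of_zero_le h
        refine ⟨0, PowerSeries.X ^ m * f.powerSeriesPart, ?_⟩
        rw [hm] at h2
        conv_lhs => rw [← h2]
        simp
      · obtain ⟨m, hm⟩ := Int.eq_ofNat_of_zero_le (neg_nonneg.2 h)
        refine ⟨m, f.powerSeriesPart, ?_⟩
        rw [show -(m : ℤ) = f.order by rw [← hm]; ring]
        exact h2.symm
    rw [hg]
    exact redp_ps n g
  obtain ⟨h, a, ha, e⟩ := h1
  exact ⟨h, a, ha, e⟩

end Pool.Agent.Helper26.WR
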